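import Pool.Agent.Helper56.LD.Goals
import Pool.Agent.Helper56.LD.Basics

/-! Packet LD-SP4: the space is connected. -/

set_option autoImplicit false

namespace Pool.Agent.Helper51.LD

open Set Filter Topology Pool.Agent.Helper56.LD

theorem conn : StmtConn := by
  intro L Ω _ _ _ _ _ _ lt E hE
  obtain ⟨e0, he0⟩ := hE
  set ω0 : Ω := lt 0 (e0 0) with hω0
  have hc : ∀ ω : Ω, cpt (L := L) ω 0 = cpt ω0 0 := by
    intro ω
    refine amb_ext rfl (fun j l => rfl) (fun ω' => ?_)
    simp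
  refine ⟨⟨cpt ω0 0, cpt_mem lt E ω0 ⟨le_rfl, zero_le_one⟩⟩, ?_⟩
  refine isPreconnected_of_forall (cpt ω0 0) ?_
  rintro y (⟨ω, r, hr, rfl⟩ | ⟨n, e, he, w, hw, rfl⟩)
  · refine ⟨(fun r => cpt (L := L) ω r) '' Icc (0 : ℝ) 1, ?_, ?_, ?_, ?_⟩
    · rintro _ ⟨s, hs, rfl⟩
      exact cpt_mem lt E ω hs
    · exact ⟨0, ⟨le_rfl, zero_le_one⟩, hc ω⟩
    · exact ⟨r, hr, rfl⟩
    · exact isPreconnected_Icc.image _ (continuous_cpt ω).continuousOn
  · have hcont : ∀ m : ℕ, Continuous (fun v : ℝ => pt lt m e v) := fun m =>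
      (continuous_pt lt m).comp (continuous_const.prodMk continuous_id)
    set R : Set (Amb L Ω) := ⋃ m : ℕ, (fun v : ℝ => pt lt m e v) '' Icc (0 : ℝ) 1 with hR
    have hRpre : IsPreconnected R := by
      refine IsPreconnected.iUnion_of_chain (fun m =>
        isPreconnected_Icc.image _ (hcont m).continuousOn) (fun m => ?_)
      refine ⟨pt lt m e 0, ⟨0, ⟨le_rfl, zero_le_one⟩, rfl⟩, ⟨1, ⟨zero_le_one, le_rfl⟩, ?_⟩⟩
      exact (pt_zero lt m e).symm
    have hRsub : R ⊆ MSet lt E := by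
      intro x hx
      obtain ⟨m, v, hv, rfl⟩ := mem_iUnion.1 hx
      exact pt_mem lt m he hv
    have hlim : Tendsto (fun m : ℕ => pt lt m e 1) atTop (𝓝 (cpt (L := L) ω0 0)) := by
      refine Tendsto.prodMk_nhds ?_ (Tendsto.prodMk_nhds ?_ ?_)
      · simp only [hgt_one]
        have := tendsto_pow_atTop_nhds_zero_of_lt_one (r := (1 / 2 : ℝ)) (by norm_num) (by norm_num)
        simpa [one_div_pow] using this
      · refine tendsto_pi_nhds.2 fun j => tendsto_pi_nhds.2 fun l => ?_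
        refine tendsto_const_nhds.congr' ?_
        filter_upwards [eventually_gt_atTop j] with m hm
        simp [wt_lt hm]
      · refine tendsto_pi_nhds.2 fun ω => ?_
        refine tendsto_const_nhds.congr' ?_
        filter_upwards with m
        simp [tent_one]
    have hcl : cpt (L := L) ω0 0 ∈ closure R := by
      refine mem_closure_of_tendsto hlim (Eventually.of_forall fun m => ?_)
      exact mem_iUnion.2 ⟨m, 1, ⟨zero_le_one, le_rfl⟩, rfl⟩
    refine ⟨insert (cpt ω0 0) R, ?_, mem_insert _ _, ?_, ?_⟩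
    · exact insert_subset (cpt_mem lt E ω0 ⟨le_rfl, zero_le_one⟩) hRsub
    · exact mem_insert_of_mem _ (mem_iUnion.2 ⟨n, w, hw, rfl⟩)
    · exact hRpre.subset_closure (subset_insert _ _) (insert_subset hcl subset_closure)

end Pool.Agent.Helper51.LD
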